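import Mathlib
import Pool.Agent.TH202.FlFin
import Pool.Agent.TH202.FlSeq
import Pool.Agent.TH922.C8_DAT
import Pool.Agent.TH551.C8_XM1
import Pool.Agent.TH921.FL_GK

/-!
# An infinite sequence of flips

There is a projective (hence compact Kähler) threefold gklt pair with an infinite sequence of
flips.
-/

set_option autoImplicit false

namespace Pool.Agent.Results.MP_aa0b3f_ag.InfiniteFlips

open Pool.Agent.H436R3.Fol Pool.Agent.TH202

theorem result : ∃ (K : Type) (_ : Field K) (_ : Algebra ℂ K) (_ : Algebra.EssFiniteType ℂ K)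
    (T : Foliation K 3) (_ : T.space = ⊤) (Y : ℕ → Model K) (β : DVal K → ℝ)
    (D : ℕ → DVal K → ℝ),
    (∀ n, IsGklt T (Y n) 0 β (D n)) ∧ ∀ n, IsFlip (Y n) (Y (n + 1)) (D n) (D (n + 1)) := by
  obtain ⟨K, iF, iA, iE, ⟨d⟩⟩ := Pool.Agent.TH922.C8_DAT.exists_dat
  obtain ⟨T, hT, hTs⟩ := Pool.Agent.TH922.C8_DAT.exists_fol d
  have h := Pool.Agent.TH551.C8_XM1.xi_alg d
  obtain ⟨s, hfil, hgen, hy⟩ := exists_sq2 d
  refine ⟨K, iF, iA, iE, T, hTs, fun n => M3 s (n + 3) (by omega), bt s, fun n => Dn s (n + 3),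
    fun n => ?_, fun n => ?_⟩
  · exact Pool.Agent.TH921.FL_GK.gk h s hfil T hT (n + 3) (by omega)
  · exact is_flip h s hfil hgen hy (n + 3) (by omega)

end Pool.Agent.Results.MP_aa0b3f_ag.InfiniteFlips
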